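import Mathlib
import Pool.Agent.W188.QS.Stm2

/-!
# Good heights
-/

set_option autoImplicit false

open Complex MeasureTheory Set Filter Topology

namespace Pool.Agent.W563.QS.Good

open Pool.Agent.W188.QS

lemma slit {z : ℂ} (h1 : ‖z‖ = 1) (h2 : z ≠ -1) : z ∈ slitPlane := by
  rw [mem_slitPlane_iff]
  by_contra h
  push Not at h
  obtain ⟨h3, h4⟩ := h
  have h5 : (z.re : ℂ) = z := by
    apply Complex.ext
    · simp
    · simp [h4]
  have h6 : |z.re| = 1 := by
    have h7 := Complex.norm_real z.re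
    rw [h5, h1, Real.norm_eq_abs] at h7
    exact h7.symm
  rw [abs_of_nonpos h3] at h6
  apply h2
  have h8 : z.re = -1 := by linarith
  rw [← h5, h8]
  simp

lemma norm_ww {c : ℂ} (hc : ‖c‖ = 1) (N : ℕ) (s : ℂ) : ‖ww c N s‖ = (‖XX s‖⁻¹) ^ N := by
  rw [ww, norm_mul, hc, one_mul, norm_pow, norm_inv]

lemma exists_pt (h : StLine) {N : ℕ} (hN : 1 ≤ N) {c : ℂ} (hc : ‖c‖ = 1) {x : ℝ}
    (hx : 2 * Real.pi * Real.exp 8 ≤ x) (hx' : 50 ≤ x) :
    ∃ a, x ≤ a ∧ a ≤ x + 1 ∧ ww c N (cp a) = -1 := by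
  obtain ⟨hlam, hX1, -, -, -, -, hder, -, -, -⟩ := h
  by_contra hcon
  push Not at hcon
  have hY : ∀ t : ℝ, ‖ww c N (cp t)‖ = 1 := fun t => by
    rw [norm_ww hc, hX1, inv_one, one_pow]
  have hsl : ∀ t ∈ Icc x (x + 1), ww c N (cp t) ∈ slitPlane := fun t ht =>
    slit (hY t) (hcon t ht.1 ht.2)
  have hcp : ∀ t : ℝ, HasDerivAt cp I t := by
    intro t
    have h1 : HasDerivAt (fun t : ℝ => (t : ℂ)) 1 t := Complex.ofRealCLM.hasDerivAt
    have h2 := (h1.mul_const I).const_add (1 / 2 : ℂ)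
    rw [one_mul] at h2
    exact h2
  have hd : ∀ t ∈ Icc x (x + 1), HasDerivAt (fun t : ℝ => Complex.log (ww c N (cp t)))
      (-((N : ℂ) * (lam t : ℂ)) * I) t := by
    intro t ht
    have ht50 : 50 ≤ t := hx'.trans ht.1
    have h1 := hder c N (cp t) (by simp [cp]) (by simp [cp]; linarith)
    have h2 := h1.comp t (hcp t)
    have h3 := h2.clog_real (hsl t ht)
    refine h3.congr_deriv ?_
    have h4 : ww c N (cp t) ≠ 0 := slitPlane_ne_zero (hsl t ht)
    rw [(hlam t ht50).1]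
    simp only [Function.comp_apply]
    field_simp
  have hd2 : ∀ t ∈ Icc x (x + 1), HasDerivAt (fun t : ℝ => (Complex.log (ww c N (cp t))).im)
      (-((N : ℝ) * lam t)) t := by
    intro t ht
    have h1 := (Complex.imCLM.hasFDerivAt (x := Complex.log (ww c N (cp t)))).comp_hasDerivAt t
      (hd t ht)
    refine h1.congr_deriv ?_
    simp
  obtain ⟨ξ, hξ, hξ'⟩ := exists_hasDerivAt_eq_slope
    (fun t : ℝ => (Complex.log (ww c N (cp t))).im) (fun t => -((N : ℝ) * lam t))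
    (by linarith : x < x + 1)
    (fun t ht => (hd2 t ht).continuousAt.continuousWithinAt)
    (fun t ht => hd2 t ⟨ht.1.le, ht.2.le⟩)
  have hξ50 : 50 ≤ ξ := hx'.trans hξ.1.le
  have h1 := abs_le.1 (hlam ξ hξ50).2.1
  have h2 : 8 ≤ Real.log (ξ / (2 * Real.pi)) := by
    rw [Real.le_log_iff_exp_le (by have := Real.pi_pos; positivity),
      le_div_iff₀ (by have := Real.pi_pos; positivity)]
    linarith [hξ.1]
  have h3 : 14 / ξ ≤ 1 := by
    rw [div_le_one (by linarith)]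
    linarith
  have h4 : 7 ≤ lam ξ := by linarith [h1.1]
  have h5 : (1 : ℝ) ≤ N := by exact_mod_cast hN
  have h6 : 7 ≤ (N : ℝ) * lam ξ := by nlinarith
  have h7 : (x + 1) - x = 1 := by ring
  rw [h7, div_one] at hξ'
  simp only [Complex.log_im] at hξ'
  have h8 := Complex.neg_pi_lt_arg (ww c N (cp (x + 1)))
  have h9 := Complex.arg_le_pi (ww c N (cp x))
  have h10 := Real.pi_lt_d2
  linarith

lemma good (h : StLine) {N : ℕ} {K : ℝ}
    (hK : ∀ s : ℂ, 1 / 2 ≤ s.re → s.re ≤ 4 → 1 ≤ s.im →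
      Real.exp (-K) * s.im ^ (s.re - 1 / 2) ≤ ‖XX s‖ ∧ ‖XX s‖ ≤ Real.exp K * s.im ^ (s.re - 1 / 2))
    {c : ℂ} (hc : ‖c‖ = 1) {a : ℝ} (ha : 100 ≤ a) (ha2 : 98 * N * Real.exp (K * N) ≤ a)
    (hw : ww c N (cp a) = -1) (σ : ℝ) (h1 : 1 / 2 ≤ σ) (h4 : σ ≤ 4) :
    (ww c N (⟨σ, a⟩ : ℂ)).re ≤ 0 := by
  obtain ⟨-, -, -, -, -, -, hder, hld, -, -⟩ := h
  set L : ℝ := Real.log (a / (2 * Real.pi)) with hL
  set sg : ℝ → ℂ := fun σ => (⟨σ, a⟩ : ℂ) with hsg
  have hpi := Real.pi_pos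
  have hLa : L ≤ Real.log a := by
    apply Real.log_le_log (by positivity)
    rw [div_le_iff₀ (by positivity)]
    nlinarith [Real.pi_gt_three]
  set u : ℝ → ℂ := fun σ => -(ww c N (sg σ)) * ((Real.exp (N * L * (σ - 1 / 2)) : ℝ) : ℂ) with hu
  have hsgd : ∀ t : ℝ, HasDerivAt sg 1 t := by
    intro t
    have h1 : HasDerivAt (fun t : ℝ => (t : ℂ)) 1 t := Complex.ofRealCLM.hasDerivAt
    have h2 := h1.add_const ((a : ℂ) * I)
    refine h2.congr_of_eventuallyEq (Eventually.of_forall fun r => ?_)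
    simp only [hsg]
    rw [Complex.mk_eq_add_mul_I]
  have hud : ∀ t ∈ Icc (1 / 2 : ℝ) 4, HasDerivAt u (-((N : ℂ) * (logDeriv XX (sg t) - (L : ℂ))) *
      u t) t := by
    intro t ht
    have e1 := (hder c N (sg t) (by simp only [hsg]; linarith [ht.1])
      (by simp only [hsg]; linarith)).comp t (hsgd t)
    have e2 : HasDerivAt (fun t : ℝ => Real.exp (N * L * (t - 1 / 2)))
        (Real.exp (N * L * (t - 1 / 2)) * (N * L * 1)) t :=
      (((hasDerivAt_id t).sub_const (1 / 2)).const_mul (N * L)).exp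
    have e3 := e1.neg.mul e2.ofReal_comp
    refine (e3.congr_of_eventuallyEq (Eventually.of_forall fun r => ?_)).congr_deriv ?_
    · rfl
    · simp only [hu]
      have e4 : (-(ww c N ∘ sg)) t = -ww c N (sg t) := rfl
      rw [e4]
      push_cast
      ring
  have hun : ∀ t ∈ Icc (1 / 2 : ℝ) 4, ‖u t‖ ≤ Real.exp (K * N) := by
    intro t ht
    have e1 := (hK (sg t) ht.1 ht.2 (by simp only [hsg]; linarith)).1
    have e2 : Real.exp (-K) * (sg t).im ^ ((sg t).re - 1 / 2) =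
        Real.exp (-K + Real.log a * (t - 1 / 2)) := by
      rw [Real.exp_add, ← Real.rpow_def_of_pos (by linarith : 0 < a)]
    rw [e2] at e1
    have e3 : ‖XX (sg t)‖⁻¹ ≤ Real.exp (K - Real.log a * (t - 1 / 2)) := by
      have := inv_anti₀ (Real.exp_pos _) e1
      rwa [← Real.exp_neg, neg_add, neg_neg, ← sub_eq_add_neg] at this
    have e4 : (‖XX (sg t)‖⁻¹) ^ N ≤ Real.exp (N * (K - Real.log a * (t - 1 / 2))) := by
      rw [Real.exp_nat_mul]
      exact pow_le_pow_left₀ (by positivity) e3 N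
    simp only [hu]
    rw [norm_mul, norm_neg, norm_ww hc, Complex.norm_real, Real.norm_eq_abs, Real.abs_exp]
    calc (‖XX (sg t)‖⁻¹) ^ N * Real.exp (N * L * (t - 1 / 2)) ≤
        Real.exp (N * (K - Real.log a * (t - 1 / 2))) * Real.exp (N * L * (t - 1 / 2)) :=
          mul_le_mul_of_nonneg_right e4 (Real.exp_pos _).le
      _ = Real.exp (K * N - N * ((Real.log a - L) * (t - 1 / 2))) := by
          rw [← Real.exp_add]
          congr 1
          ring
      _ ≤ Real.exp (K * N) := by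
          apply Real.exp_le_exp.2
          have e5 : 0 ≤ (N : ℝ) * ((Real.log a - L) * (t - 1 / 2)) := by
            have := ht.1
            have e6 : 0 ≤ Real.log a - L := by linarith
            have e7 : 0 ≤ t - 1 / 2 := by linarith
            positivity
          linarith
  have hub : ∀ t ∈ Icc (1 / 2 : ℝ) 4, ‖-((N : ℂ) * (logDeriv XX (sg t) - (L : ℂ))) * u t‖ ≤
      N * (14 / a) * Real.exp (K * N) := by
    intro t ht
    have e1 := hld (sg t) (by simp only [hsg]; linarith [ht.1]) ht.2 (by simp only [hsg]; linarith)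
    rw [norm_mul, norm_neg, norm_mul, Complex.norm_natCast]
    have e2 : ‖logDeriv XX (sg t) - (L : ℂ)‖ ≤ 14 / a := e1
    have e3 := hun t ht
    gcongr
  have hmv := (convex_Icc (1 / 2 : ℝ) 4).norm_image_sub_le_of_norm_hasDerivWithin_le
    (fun t ht => (hud t ht).hasDerivWithinAt) hub (left_mem_Icc.2 (by norm_num)) ⟨h1, h4⟩
  have hu1 : u (1 / 2) = 1 := by
    simp only [hu]
    have e1 : sg (1 / 2) = cp a := by
      simp only [hsg, cp]
      rw [Complex.mk_eq_add_mul_I]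
      push_cast
      rfl
    rw [e1, hw]
    simp
  rw [hu1] at hmv
  have hfin : ‖u σ - 1‖ ≤ 1 / 2 := by
    refine hmv.trans ?_
    rw [Real.norm_eq_abs, abs_of_nonneg (by linarith)]
    have e1 : (N : ℝ) * (14 / a) * Real.exp (K * N) = 14 * N * Real.exp (K * N) / a := by ring
    rw [e1]
    have e2 : 14 * N * Real.exp (K * N) / a ≤ 1 / 7 := by
      rw [div_le_iff₀ (by linarith)]
      linarith
    have e3 : 0 ≤ 14 * N * Real.exp (K * N) / a := by positivity
    have e4 : σ - 1 / 2 ≤ 7 / 2 := by linarith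
    calc 14 * N * Real.exp (K * N) / a * (σ - 1 / 2) ≤ 1 / 7 * (7 / 2) := by
          apply mul_le_mul e2 e4 (by linarith) (by norm_num)
      _ = 1 / 2 := by norm_num
  have hre : 0 ≤ (u σ).re := by
    have e1 := (Complex.abs_re_le_norm (u σ - 1)).trans hfin
    rw [Complex.sub_re, Complex.one_re] at e1
    have := (abs_le.1 e1).1
    linarith
  have hre2 : (u σ).re = -(ww c N (sg σ)).re * Real.exp (N * L * (σ - 1 / 2)) := by
    simp only [hu]
    rw [Complex.re_mul_ofReal, Complex.neg_re]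
  rw [hre2] at hre
  have hpos := Real.exp_pos (N * L * (σ - 1 / 2))
  by_contra hcon
  push Not at hcon
  have : -(ww c N (sg σ)).re * Real.exp (N * L * (σ - 1 / 2)) < 0 := by
    have e1 : 0 < (ww c N (sg σ)).re := hcon
    nlinarith [mul_pos e1 hpos]
  linarith

theorem qs_good (h : StLine) : StGood := by
  intro N hN
  obtain ⟨K, -, hK⟩ := h.2.2.2.2.2.2.2.2.1
  refine ⟨max 100 (max (2 * Real.pi * Real.exp 8) (98 * N * Real.exp (K * N))), le_max_left _ _,
    fun c hc x hx => ?_⟩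
  have h1 : 100 ≤ x := (le_max_left _ _).trans hx
  have h2 : 2 * Real.pi * Real.exp 8 ≤ x :=
    ((le_max_left _ _).trans (le_max_right _ _)).trans hx
  have h3 : 98 * N * Real.exp (K * N) ≤ x :=
    ((le_max_right _ _).trans (le_max_right _ _)).trans hx
  obtain ⟨a, ha1, ha2, ha3⟩ := exists_pt h hN hc h2 (by linarith)
  exact ⟨a, ha1, ha2, ha3, fun σ hσ1 hσ2 =>
    good h hK hc (h1.trans ha1) (h3.trans ha1) ha3 σ hσ1 hσ2⟩

end Pool.Agent.W563.QS.Good
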